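import Pool.Agent.Helper47.SR.Final

/-!
Symmetric chain decompositions of `B_n / G` for semiregular permutation groups of large degree.
-/

namespace Pool.Agent.Helper47.Superseded.SemiregularGroups

/-- The quotient poset `B_n / G` has a symmetric chain decomposition: there are finitely many
non-empty lists of subsets of `Fin n`, in each of which consecutive sets `A`, `B` satisfy `A ⊆ B`
and `|B| = |A| + 1` and the sizes of the first and the last set add up to `n`, such that every
subset of `Fin n` is in the `G`-orbit of exactly one entry of exactly one of the lists. -/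
def QuotientHasSCD (n : ℕ) (G : Subgroup (Equiv.Perm (Fin n))) : Prop :=
  ∃ C : Finset (List (Finset (Fin n))),
    (∀ L ∈ C, L ≠ [] ∧
      (∀ (i : ℕ) (A B : Finset (Fin n)), L[i]? = some A → L[i+1]? = some B →
          A ⊆ B ∧ B.card = A.card + 1) ∧
      (∀ A ∈ L.head?, ∀ B ∈ L.getLast?, A.card + B.card = n)) ∧
    ∀ S : Finset (Fin n), ∃! p : List (Finset (Fin n)) × ℕ,
      p.1 ∈ C ∧ ∃ T : Finset (Fin n), p.1[p.2]? = some T ∧
        ∃ g ∈ G, T.map (Equiv.toEmbedding g) = S

/-- There is `n₀` such that for all `n ≥ n₀` and every semiregular group `G ≤ S_n` (no element other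
than the identity has a fixed point) the quotient `B_n / G` has a symmetric chain decomposition. -/
theorem result : ∃ n₀ : ℕ, ∀ n : ℕ, n₀ ≤ n → ∀ G : Subgroup (Equiv.Perm (Fin n)),
    (∀ g ∈ G, g ≠ 1 → ∀ x, g x ≠ x) → QuotientHasSCD n G :=
  Pool.Agent.Helper47.SR.final

end Pool.Agent.Helper47.Superseded.SemiregularGroups
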